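import Pool.Agent.helper82.T6.SpecL2

set_option autoImplicit false

namespace Pool.Agent.T6

open Finset Pool.Agent.helper3.FT

lemma DF_prt_pos (j d : ℕ) : 1 ≤ prt j d := by
  unfold prt
  refine Finset.one_le_prod' (fun p hp => ?_)
  have : p.Prime := Nat.prime_of_mem_primeFactors (Finset.mem_filter.1 hp).1
  exact Nat.one_le_pow _ _ this.pos

lemma DF_prt_prime {j d p : ℕ} (hp : p.Prime) (h : p ∣ prt j d) : p ∣ d ∧ Nat.log 2 p < j := by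
  unfold prt at h
  obtain ⟨q, hq, hpq⟩ := (Prime.dvd_finsetProd_iff hp.prime _).1 h
  have hq' := Finset.mem_filter.1 hq
  have hqp : q.Prime := Nat.prime_of_mem_primeFactors hq'.1
  have : p ∣ q := hp.dvd_of_dvd_pow hpq
  have e : p = q := (Nat.prime_dvd_prime_iff_eq hp hqp).1 this
  subst e
  exact ⟨Nat.dvd_of_mem_primeFactors hq'.1, hq'.2⟩

/-- interpolation -/
lemma DF_interp (N e a P s i C1 C2 : ℝ) (ha : 0 ≤ a) (hP : 0 ≤ P) (hs : 0 < s) (hi : 0 < i) (h1 : 1 ≤ C1) (h2 : 1 ≤ C2)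
    (he : 0 ≤ e) (hN1 : N ≤ C1 * a * P / s + e) (hN2 : N ≤ C2 * a * s ^ 7 / i) :
    N ≤ C1 * C2 * a * P ^ (7 / 8 : ℝ) / i ^ (1 / 8 : ℝ) + e := by
  have hnn : 0 ≤ C1 * C2 * a * P ^ (7 / 8 : ℝ) / i ^ (1 / 8 : ℝ) := by positivity
  rcases le_or_gt N e with h | h
  · linarith
  · have hM : 0 ≤ N - e := by linarith
    have hx : N - e ≤ C1 * a * P / s := by linarith
    have hz : N - e ≤ C2 * a * s ^ 7 / i := by linarith
    suffices hh : N - e ≤ C1 * C2 * a * P ^ (7 / 8 : ℝ) / i ^ (1 / 8 : ℝ) by linarith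
    have h8 : (N - e) ^ 8 ≤ (C1 * C2 * a * P ^ (7 / 8 : ℝ) / i ^ (1 / 8 : ℝ)) ^ 8 := by
      have hi8 : (i ^ (1 / 8 : ℝ)) ^ 8 = i := by
        rw [← Real.rpow_natCast, ← Real.rpow_mul hi.le]; norm_num
      have hP8 : (P ^ (7 / 8 : ℝ)) ^ 8 = P ^ 7 := by
        rw [← Real.rpow_natCast, ← Real.rpow_mul hP]
        rw [show (7 / 8 : ℝ) * ((8 : ℕ) : ℝ) = ((7 : ℕ) : ℝ) by norm_num, Real.rpow_natCast]
      calc (N - e) ^ 8 = (N - e) ^ 7 * (N - e) := by ring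
        _ ≤ (C1 * a * P / s) ^ 7 * (C2 * a * s ^ 7 / i) := by gcongr
        _ = (C1 ^ 7 * C2) * (a ^ 8 * P ^ 7 / i) := by field_simp
        _ ≤ (C1 ^ 8 * C2 ^ 8) * (a ^ 8 * P ^ 7 / i) := by
            gcongr
            · norm_num
            · exact le_self_pow₀ h2 (by norm_num)
        _ = (C1 * C2 * a * P ^ (7 / 8 : ℝ) / i ^ (1 / 8 : ℝ)) ^ 8 := by
            rw [div_pow, mul_pow, mul_pow, mul_pow, hi8, hP8]; ring
    exact le_of_pow_le_pow_left₀ (by norm_num) hnn h8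

theorem DF (hDD : DD_stmt) (hDE : DE_stmt) (hP4 : P4_stmt) : DF_stmt := by
  classical
  obtain ⟨C1, hC1, hdd⟩ := hDD
  obtain ⟨C2, hC2, hde⟩ := hDE
  obtain ⟨C4, y4, hC4, hp4⟩ := hP4
  refine ⟨C1 * C2 * C4, max y4 32, ?_, ?_⟩
  · exact one_le_mul_of_one_le_of_one_le (one_le_mul_of_one_le_of_one_le hC1 hC2) hC4
  intro b y u K i s Φ hMR hy hPot hIH hK hi hiu
  have hy4 : y4 ≤ y := (le_max_left _ _).trans hy
  have hy32 : 32 ≤ y := (le_max_right _ _).trans hy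
  have hs0 : (0:ℝ) < s := lt_of_lt_of_le one_pos hMR.s1
  set j := j0 K i with hj
  set T := (SI b y u s i).filter (fun p => (prt j p.1 : ℝ) ≤ (2 : ℝ) ^ ((i : ℝ) / 20)) with hT
  set Q : Finset ℕ := T.image (fun p => prt j p.1) with hQ
  have hQprop : ∀ q ∈ Q, 1 ≤ q ∧ Rgh y q ∧ (∀ p : ℕ, p.Prime → p ∣ q → Nat.log 2 p < j) ∧
      (q : ℝ) ≤ (2 : ℝ) ^ ((i : ℝ) / 20) := by
    intro q hq
    obtain ⟨p, hp, rfl⟩ := Finset.mem_image.1 hq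
    have hp' := Finset.mem_filter.1 hp
    have hpSB := (Finset.mem_filter.1 hp'.1).1
    have hpSU := (Finset.mem_filter.1 hpSB).1
    have hpPR := (Finset.mem_filter.1 hpSU).1
    have hR := (Finset.mem_filter.1 hpPR).2.2.2
    exact ⟨DF_prt_pos _ _, fun l hl hd => hR l hl (DF_prt_prime hl hd).1, fun l hl hd => (DF_prt_prime hl hd).2, hp'.2⟩
  have hcard : (T.card : ℝ) ≤ ∑ q ∈ Q, ((SIq b y u s K i q).card : ℝ) := by
    have h1 : T.card = ∑ q ∈ Q, (T.filter (fun p => prt j p.1 = q)).card :=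
      Finset.card_eq_sum_card_image _ _
    rw [h1]
    push_cast
    refine Finset.sum_le_sum fun q _ => ?_
    have : (T.filter (fun p => prt j p.1 = q)) ⊆ SIq b y u s K i q := by
      intro p hp
      have hp' := Finset.mem_filter.1 hp
      exact Finset.mem_filter.2 ⟨(Finset.mem_filter.1 hp'.1).1, hp'.2⟩
    exact_mod_cast Finset.card_le_card this
  set E : ℝ := Φ u * 4 ^ u * (2 : ℝ) ^ (-(47 * (i : ℝ) / 250)) + 8 ^ i * (2 : ℝ) ^ (158 * (u : ℝ) / 100) with hE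
  have hΦ : 0 ≤ Φ u := by linarith [hPot.two u]
  have hE0 : 0 ≤ E := by positivity
  have hi0 : (0:ℝ) < i := by exact_mod_cast (by omega : 0 < i)
  have hterm : ∀ q ∈ Q, ((SIq b y u s K i q).card : ℝ) * s ^ 7 ≤
      C1 * C2 * (4 ^ u / (j + 1) / (i : ℝ) ^ (1 / 8 : ℝ)) * (1 / (q : ℝ) * (∏ J ∈ Sg j q, (4 / J : ℝ)) ^ (7 / 8 : ℝ)) +
        C1 * (2 : ℝ) ^ (3 * (i : ℝ) / 50) * E := by
    intro q hq
    obtain ⟨hq1, hqR, hqp, hqb⟩ := hQprop q hq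
    have hq0 : (0:ℝ) < q := by exact_mod_cast hq1
    have a1 := hdd b y u K i q s Φ hMR hy32 hPot hIH hK hi hiu hq1 hqR hqb
    have a2 := hde b y u K i q s hK (by omega) hiu hq1 hqb
    have hP0 : 0 ≤ ∏ J ∈ Sg j q, (4 / J : ℝ) := Finset.prod_nonneg fun J _ => by positivity
    have a3 := DF_interp (((SIq b y u s K i q).card : ℝ) * s ^ 7) (C1 * (2 : ℝ) ^ (3 * (i : ℝ) / 50) * E)
      (4 ^ u / (q * (j + 1))) (∏ J ∈ Sg j q, (4 / J : ℝ)) s i C1 C2 (by positivity) hP0 hs0 hi0 hC1 hC2 (by positivity) ?_ ?_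
    · refine a3.trans (le_of_eq ?_)
      have hj1 : (0:ℝ) < (j:ℝ) + 1 := by positivity
      have hi8 : (0:ℝ) < (i : ℝ) ^ (1 / 8 : ℝ) := by positivity
      field_simp
    · refine a1.trans (le_of_eq ?_)
      have hj1 : (0:ℝ) < (j:ℝ) + 1 := by positivity
      rw [← hj, ← hE]
      field_simp
    · calc ((SIq b y u s K i q).card : ℝ) * s ^ 7 ≤ (C2 * 4 ^ u / (q * (j + 1) * i)) * s ^ 7 := by
            gcongr
        _ = C2 * (4 ^ u / (q * (j + 1))) * s ^ 7 / i := by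
            have hj1 : (0:ℝ) < (j:ℝ) + 1 := by positivity
            field_simp
  have hQcard : (Q.card : ℝ) ≤ (2 : ℝ) ^ ((i : ℝ) / 20) := by
    have hsub : Q ⊆ Finset.Icc 1 ⌊(2 : ℝ) ^ ((i : ℝ) / 20)⌋₊ := by
      intro q hq
      obtain ⟨hq1, _, _, hqb⟩ := hQprop q hq
      exact Finset.mem_Icc.2 ⟨hq1, Nat.le_floor hqb⟩
    have h1 := Finset.card_le_card hsub
    rw [Nat.card_Icc] at h1
    have h2 : (⌊(2 : ℝ) ^ ((i : ℝ) / 20)⌋₊ : ℝ) ≤ (2 : ℝ) ^ ((i : ℝ) / 20) := Nat.floor_le (by positivity)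
    have h3 : (Q.card : ℝ) ≤ (⌊(2 : ℝ) ^ ((i : ℝ) / 20)⌋₊ : ℝ) := by
      exact_mod_cast (by omega : Q.card ≤ ⌊(2 : ℝ) ^ ((i : ℝ) / 20)⌋₊)
    linarith
  have hsumP := hp4 y j hy4 Q (fun q hq => ⟨(hQprop q hq).1, (hQprop q hq).2.1, (hQprop q hq).2.2.1⟩)
  have hj1 : (0:ℝ) < (j:ℝ) + 1 := by positivity
  have hi8 : (0:ℝ) < (i : ℝ) ^ (1 / 8 : ℝ) := by positivity
  have h2e : (2 : ℝ) ^ ((i : ℝ) / 20) * (2 : ℝ) ^ (3 * (i : ℝ) / 50) = (2 : ℝ) ^ (11 * (i : ℝ) / 100) := by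
    rw [← Real.rpow_add (by norm_num)]; congr 1; ring
  calc (T.card : ℝ) * s ^ 7 ≤ (∑ q ∈ Q, ((SIq b y u s K i q).card : ℝ)) * s ^ 7 := by gcongr
    _ = ∑ q ∈ Q, ((SIq b y u s K i q).card : ℝ) * s ^ 7 := by rw [Finset.sum_mul]
    _ ≤ ∑ q ∈ Q, (C1 * C2 * (4 ^ u / (j + 1) / (i : ℝ) ^ (1 / 8 : ℝ)) * (1 / (q : ℝ) * (∏ J ∈ Sg j q, (4 / J : ℝ)) ^ (7 / 8 : ℝ)) +
        C1 * (2 : ℝ) ^ (3 * (i : ℝ) / 50) * E) := Finset.sum_le_sum hterm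
    _ = C1 * C2 * (4 ^ u / (j + 1) / (i : ℝ) ^ (1 / 8 : ℝ)) * (∑ q ∈ Q, 1 / (q : ℝ) * (∏ J ∈ Sg j q, (4 / J : ℝ)) ^ (7 / 8 : ℝ)) +
        (Q.card : ℝ) * (C1 * (2 : ℝ) ^ (3 * (i : ℝ) / 50) * E) := by
        rw [Finset.sum_add_distrib, ← Finset.mul_sum, Finset.sum_const, nsmul_eq_mul]
    _ ≤ C1 * C2 * (4 ^ u / (j + 1) / (i : ℝ) ^ (1 / 8 : ℝ)) * C4 +
        (2 : ℝ) ^ ((i : ℝ) / 20) * (C1 * (2 : ℝ) ^ (3 * (i : ℝ) / 50) * E) := by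
        gcongr
    _ = C1 * C2 * C4 * 4 ^ u / ((j + 1) * (i : ℝ) ^ (1 / 8 : ℝ)) + C1 * (2 : ℝ) ^ (11 * (i : ℝ) / 100) * E := by
        rw [← h2e]
        field_simp
    _ ≤ C1 * C2 * C4 * 4 ^ u / ((j + 1) * (i : ℝ) ^ (1 / 8 : ℝ)) + C1 * C2 * C4 * (2 : ℝ) ^ (11 * (i : ℝ) / 100) * E := by
        gcongr
        calc C1 = C1 * 1 * 1 := by ring
          _ ≤ C1 * C2 * C4 := by gcongr

end Pool.Agent.T6
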